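import Pool.Agent.Helper47.UG.Stmts

set_option autoImplicit false

/-!
Project UG, row RSA: the logarithmic sum is nearly affine in `log x`
(Dirichlet hyperbola method).
-/

namespace Pool.Agent.Helper47.UG

open Finset

theorem rsa_abel_id (c f : ℕ → ℝ) (a b : ℕ) (hab : a ≤ b) :
    ∑ d ∈ Ico a b, c d * f d = (∑ d ∈ Ico a b, c d) * f b +
      ∑ d ∈ Ico a b, (∑ e ∈ Ico a (d + 1), c e) * (f d - f (d + 1)) := by
  induction b, hab using Nat.le_induction with
  | base => simp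
  | succ b hab ih =>
    rw [Finset.sum_Ico_succ_top hab, ih, Finset.sum_Ico_succ_top hab,
      Finset.sum_Ico_succ_top (f := fun d => (∑ e ∈ Ico a (d + 1), c e) * (f d - f (d + 1))) hab,
      Finset.sum_Ico_succ_top (f := fun d => c d) hab]
    ring

theorem rsa_abel (c f : ℕ → ℝ) (q : ℝ) (a b : ℕ)
    (hc : ∀ m n : ℕ, |∑ k ∈ Ico m n, c k| ≤ q) (hf : ∀ d, a ≤ d → f (d + 1) ≤ f d)
    (hf0 : ∀ d, a ≤ d → 0 ≤ f d) : |∑ d ∈ Ico a b, c d * f d| ≤ q * f a := by
  have hq : 0 ≤ q := le_trans (abs_nonneg _) (hc 0 0)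
  rcases le_or_gt a b with hab | hab
  · rw [rsa_abel_id c f a b hab]
    have htel : ∑ d ∈ Ico a b, (f d - f (d + 1)) = f a - f b := by
      clear hc
      induction b, hab using Nat.le_induction with
      | base => simp
      | succ b hab ih =>
        rw [Finset.sum_Ico_succ_top hab, ih]
        ring
    calc |(∑ d ∈ Ico a b, c d) * f b +
          ∑ d ∈ Ico a b, (∑ e ∈ Ico a (d + 1), c e) * (f d - f (d + 1))|
        ≤ |(∑ d ∈ Ico a b, c d) * f b| +
          |∑ d ∈ Ico a b, (∑ e ∈ Ico a (d + 1), c e) * (f d - f (d + 1))| := abs_add_le _ _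
      _ ≤ q * f b + ∑ d ∈ Ico a b, q * (f d - f (d + 1)) := by
          apply add_le_add
          · rw [abs_mul, abs_of_nonneg (hf0 b hab)]
            exact mul_le_mul_of_nonneg_right (hc a b) (hf0 b hab)
          · refine le_trans (Finset.abs_sum_le_sum_abs _ _) (Finset.sum_le_sum fun d hd => ?_)
            rw [Finset.mem_Ico] at hd
            rw [abs_mul, abs_of_nonneg (sub_nonneg.mpr (hf d hd.1))]
            exact mul_le_mul_of_nonneg_right (hc a (d + 1)) (sub_nonneg.mpr (hf d hd.1))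
      _ = q * f a := by rw [← Finset.mul_sum, htel]; ring
  · rw [Finset.Ico_eq_empty (by omega), Finset.sum_empty, abs_zero]
    exact mul_nonneg hq (hf0 a le_rfl)

theorem rsa_H (n : ℕ) (hn : 1 ≤ n) :
    |(harmonic n : ℝ) - Real.log n - Real.eulerMascheroniConstant| ≤ 1 / n := by
  have hn0 : (0 : ℝ) < n := by exact_mod_cast hn
  have h1 := Real.eulerMascheroniSeq_lt_eulerMascheroniConstant n
  have h2 := Real.eulerMascheroniConstant_lt_eulerMascheroniSeq' n
  unfold Real.eulerMascheroniSeq at h1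
  unfold Real.eulerMascheroniSeq' at h2
  rw [if_neg (by omega)] at h2
  have h3 : Real.log ((n : ℝ) + 1) - Real.log n ≤ 1 / n := by
    rw [← Real.log_div (by positivity) hn0.ne']
    have := Real.log_le_sub_one_of_pos (x := ((n : ℝ) + 1) / n) (by positivity)
    calc Real.log (((n : ℝ) + 1) / n) ≤ ((n : ℝ) + 1) / n - 1 := this
      _ = 1 / n := by field_simp; ring
  rw [abs_le]
  have hpos : (0 : ℝ) ≤ 1 / n := by positivity
  constructor <;> linarith

theorem rsa_Hdiv (x d : ℕ) (hd : 1 ≤ d) (hdx : d ≤ x) :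
    |(harmonic (x / d) : ℝ) - (Real.log x + Real.eulerMascheroniConstant - Real.log d)| ≤
      4 * d / x := by
  have hd0 : (0 : ℝ) < d := by exact_mod_cast hd
  have hx0 : (0 : ℝ) < x := by exact_mod_cast (by omega : 0 < x)
  obtain ⟨n, hn⟩ : ∃ n, n = x / d := ⟨_, rfl⟩
  have hn1 : 1 ≤ n := by rw [hn]; exact Nat.div_pos hdx (by omega)
  have hn0 : (0 : ℝ) < n := by exact_mod_cast hn1
  have h1 : n * d ≤ x := by rw [hn]; exact Nat.div_mul_le_self x d
  have h2 : x < (n + 1) * d := by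
    rw [hn]
    exact Nat.lt_mul_of_div_lt (Nat.lt_succ_self _) (by omega)
  have h1' : (n : ℝ) * d ≤ x := by exact_mod_cast h1
  have h2' : (x : ℝ) ≤ ((n : ℝ) + 1) * d := by exact_mod_cast h2.le
  rw [← hn]
  have hH := rsa_H n hn1
  have hlog1 : Real.log n ≤ Real.log x - Real.log d := by
    rw [← Real.log_div hx0.ne' hd0.ne']
    exact Real.log_le_log hn0 (by rw [le_div_iff₀ hd0]; exact h1')
  have hlog2 : Real.log x - Real.log d - Real.log n ≤ 1 / n := by
    rw [← Real.log_div hx0.ne' hd0.ne', ← Real.log_div (by positivity) hn0.ne']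
    have h3 := Real.log_le_sub_one_of_pos (x := (x : ℝ) / d / n) (by positivity)
    refine le_trans h3 ?_
    have h4 : (x : ℝ) / d / n ≤ ((n : ℝ) + 1) / n := by
      apply div_le_div_of_nonneg_right _ hn0.le
      rw [div_le_iff₀ hd0]; exact h2'
    have h5 : ((n : ℝ) + 1) / n = 1 + 1 / n := by field_simp
    linarith
  have h6 : 2 * (1 / (n : ℝ)) ≤ 4 * d / x := by
    have h7 : (x : ℝ) ≤ 2 * (n : ℝ) * d := by
      have : (1 : ℝ) ≤ n := by exact_mod_cast hn1
      nlinarith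
    rw [le_div_iff₀ hx0, mul_one_div, div_mul_eq_mul_div, div_le_iff₀ hn0]
    nlinarith
  rw [abs_le] at hH ⊢
  constructor <;> linarith [hH.1, hH.2]

theorem rsa_swap (c : ℕ → ℝ) (x : ℕ) :
    ∑ n ∈ Icc 1 x, (∑ d ∈ n.divisors, c d) / (n : ℝ) =
      ∑ d ∈ Icc 1 x, c d * ((harmonic (x / d) : ℝ) / d) := by
  have h1 : ∀ n ∈ Icc 1 x, (∑ d ∈ n.divisors, c d) / (n : ℝ) =
      ∑ d ∈ n.divisors, c d / (n : ℝ) := fun n _ => Finset.sum_div _ _ _
  have h2 : ∀ d ∈ Icc 1 x, c d * ((harmonic (x / d) : ℝ) / d) =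
      ∑ m ∈ Icc 1 (x / d), c d / ((d * m : ℕ) : ℝ) := by
    intro d hd
    rw [harmonic_eq_sum_Icc]
    push_cast
    rw [Finset.sum_div, Finset.mul_sum]
    refine Finset.sum_congr rfl fun m _ => ?_
    rw [div_eq_mul_inv, div_eq_mul_inv, mul_inv]
    ring
  rw [Finset.sum_congr rfl h1, Finset.sum_congr rfl h2, Finset.sum_sigma', Finset.sum_sigma']
  refine Finset.sum_bij' (fun p _ => ⟨p.2, p.1 / p.2⟩) (fun p _ => ⟨p.1 * p.2, p.1⟩) ?_ ?_ ?_ ?_ ?_
  · rintro ⟨n, d⟩ h
    simp only [Finset.mem_sigma, Finset.mem_Icc, Nat.mem_divisors] at h ⊢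
    obtain ⟨⟨hn1, hnx⟩, ⟨hdn, hn0⟩⟩ := h
    have hd1 : 1 ≤ d := Nat.pos_of_dvd_of_pos hdn (by omega)
    have hdn' : d ≤ n := Nat.le_of_dvd (by omega) hdn
    exact ⟨⟨hd1, le_trans hdn' hnx⟩, Nat.div_pos hdn' hd1, Nat.div_le_div_right hnx⟩
  · rintro ⟨d, m⟩ h
    simp only [Finset.mem_sigma, Finset.mem_Icc, Nat.mem_divisors] at h ⊢
    obtain ⟨⟨hd1, hdx⟩, ⟨hm1, hmx⟩⟩ := h
    have hdm : 1 ≤ d * m := Nat.mul_pos hd1 hm1
    refine ⟨⟨hdm, ?_⟩, Dvd.intro _ rfl, by omega⟩
    calc d * m ≤ d * (x / d) := Nat.mul_le_mul_left _ hmx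
      _ ≤ x := Nat.mul_div_le x d
  · rintro ⟨n, d⟩ h
    simp only [Finset.mem_sigma, Finset.mem_Icc, Nat.mem_divisors] at h ⊢
    obtain ⟨⟨hn1, hnx⟩, ⟨hdn, hn0⟩⟩ := h
    simp [Nat.mul_div_cancel' hdn]
  · rintro ⟨d, m⟩ h
    simp only [Finset.mem_sigma, Finset.mem_Icc] at h ⊢
    obtain ⟨⟨hd1, hdx⟩, ⟨hm1, hmx⟩⟩ := h
    simp [Nat.mul_div_cancel_left m (by omega : 0 < d)]
  · rintro ⟨n, d⟩ h
    simp only [Finset.mem_sigma, Finset.mem_Icc, Nat.mem_divisors] at h ⊢
    obtain ⟨⟨hn1, hnx⟩, ⟨hdn, hn0⟩⟩ := h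
    rw [Nat.mul_div_cancel' hdn]

/-- `(1 + log d) / d` is nonincreasing -/
theorem rsa_anti (d : ℕ) (hd : 1 ≤ d) :
    (1 + Real.log ((d + 1 : ℕ) : ℝ)) / ((d + 1 : ℕ) : ℝ) ≤ (1 + Real.log d) / d := by
  have hd0 : (0 : ℝ) < d := by exact_mod_cast hd
  have hd1 : (1 : ℝ) ≤ d := by exact_mod_cast hd
  push_cast
  rw [div_le_div_iff₀ (by positivity) hd0]
  have h1 : Real.log ((d : ℝ) + 1) ≤ Real.log d + 1 / d := by
    have h := Real.log_le_sub_one_of_pos (x := ((d : ℝ) + 1) / d) (by positivity)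
    rw [Real.log_div (by positivity) hd0.ne'] at h
    have h5 : ((d : ℝ) + 1) / d = 1 + 1 / d := by field_simp
    linarith
  have h2 : 0 ≤ Real.log d := Real.log_nonneg hd1
  have h3 : (1 / (d : ℝ)) * d = 1 := by field_simp
  nlinarith [mul_le_mul_of_nonneg_right h1 hd0.le]

theorem st_RSA : ST_CHI → ST_RSA := by
  intro hCHI
  refine ⟨60, by norm_num, ?_⟩
  intro D X hD
  obtain ⟨c, hc⟩ : ∃ c : ℕ → ℝ, c = fun n => (chi D n : ℝ) := ⟨_, rfl⟩
  obtain ⟨γ, hγ⟩ : ∃ γ : ℝ, γ = Real.eulerMascheroniConstant := ⟨_, rfl⟩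
  refine ⟨∑ d ∈ Ico 1 (X + 1), c d / d, ∑ d ∈ Ico 1 (X + 1), c d * ((γ - Real.log d) / d), ?_⟩
  intro x hx hxX
  obtain ⟨-, -, habs, hint, -, -⟩ := hCHI D hD
  have hγ0 : 0 < γ := by
    rw [hγ]; linarith [Real.one_half_lt_eulerMascheroniConstant]
  have hγ1 : γ < 1 := by
    rw [hγ]; linarith [Real.eulerMascheroniConstant_lt_two_thirds]
  have hcabs : ∀ n, |c n| ≤ 1 := by
    intro n
    rw [hc]
    show |(chi D n : ℝ)| ≤ 1
    exact_mod_cast habs n
  have hcint : ∀ m n : ℕ, |∑ k ∈ Ico m n, c k| ≤ 4 * D := by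
    intro m n
    rw [hc]
    have := hint m n
    have h2 : ((|∑ k ∈ Finset.Ico m n, chi D k| : ℤ) : ℝ) ≤ ((4 * D : ℤ) : ℝ) := by
      exact_mod_cast this
    push_cast at h2
    exact h2
  have hRr : Rr D x = ∑ d ∈ Icc 1 x, c d * ((harmonic (x / d) : ℝ) / d) := by
    rw [← rsa_swap, Rr, hc]
    refine Finset.sum_congr rfl fun n _ => ?_
    rw [rr]
    push_cast
    rfl
  obtain ⟨s, hs⟩ : ∃ s, s = Nat.sqrt x := ⟨_, rfl⟩
  have hs1 : 1 ≤ s := by rw [hs]; exact Nat.sqrt_pos.mpr (by omega)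
  have hsx : s + 1 ≤ x := by rw [hs]; exact Nat.sqrt_lt_self (by omega)
  have hss : s * s ≤ x := by rw [hs]; exact Nat.sqrt_le x
  have hxs : x < (s + 1) * (s + 1) := by rw [hs]; exact Nat.lt_succ_sqrt x
  have hD1 : (1 : ℝ) ≤ D := by exact_mod_cast hD
  have hx2 : (2 : ℝ) ≤ x := by exact_mod_cast hx
  have hx0 : (0 : ℝ) < x := by linarith
  have hsq0 : 0 < Real.sqrt x := Real.sqrt_pos.mpr hx0
  have hsqs : Real.sqrt x ≤ (s : ℝ) + 1 := by
    rw [Real.sqrt_le_left (by positivity)]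
    have : (x : ℝ) ≤ ((s : ℝ) + 1) * ((s : ℝ) + 1) := by exact_mod_cast hxs.le
    nlinarith
  have hssq : (s : ℝ) ≤ Real.sqrt x := by
    apply Real.le_sqrt_of_sq_le
    have : (s : ℝ) * s ≤ x := by exact_mod_cast hss
    nlinarith
  have hL : (1 : ℝ) ≤ 3 / 2 * Real.log x := by
    have h1 : Real.log 2 ≤ Real.log x := Real.log_le_log (by norm_num) hx2
    linarith [Real.log_two_gt_d9]
  have hL0 : 0 < Real.log x := by linarith
  -- split the three sums at `s`
  have hspl : ∀ f : ℕ → ℝ, ∑ d ∈ Icc 1 x, f d = ∑ d ∈ Ico 1 (s + 1), f d +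
      ∑ d ∈ Ico (s + 1) (x + 1), f d := by
    intro f
    rw [Finset.sum_Ico_consecutive f (by omega) (by omega)]
    rfl
  have hsplX : ∀ f : ℕ → ℝ, ∑ d ∈ Ico 1 (X + 1), f d = ∑ d ∈ Ico 1 (s + 1), f d +
      ∑ d ∈ Ico (s + 1) (X + 1), f d := by
    intro f
    rw [Finset.sum_Ico_consecutive f (by omega) (by omega)]
  have hinv : ∀ t : ℝ, 0 ≤ t → 4 * (D : ℝ) * (t / ((s + 1 : ℕ) : ℝ)) ≤
      4 * D * t / Real.sqrt x := by
    intro t ht
    rw [mul_div_assoc]
    apply mul_le_mul_of_nonneg_left _ (by positivity)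
    apply div_le_div_of_nonneg_left ht hsq0
    push_cast
    exact hsqs
  -- tail of the sum
  have hS2 : |∑ d ∈ Ico (s + 1) (x + 1), c d * ((harmonic (x / d) : ℝ) / d)| ≤
      4 * D * (1 + Real.log x) / Real.sqrt x := by
    have h1 := rsa_abel c (fun d => (harmonic (x / d) : ℝ) / d) (4 * D) (s + 1) (x + 1) hcint
      (by
        intro d hd
        have hd0 : (0 : ℝ) < d := by exact_mod_cast (by omega : 0 < d)
        have hm : (harmonic (x / (d + 1)) : ℝ) ≤ harmonic (x / d) := by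
          have h5 : x / (d + 1) ≤ x / d := Nat.div_le_div_left (by omega) (by omega)
          rw [harmonic_eq_sum_Icc, harmonic_eq_sum_Icc]
          push_cast
          apply Finset.sum_le_sum_of_subset_of_nonneg (Finset.Icc_subset_Icc le_rfl h5)
          intro i _ _
          positivity
        have hn : (0 : ℝ) ≤ harmonic (x / d) := by
          rw [harmonic_eq_sum_Icc]
          push_cast
          exact Finset.sum_nonneg fun i _ => by positivity
        calc (harmonic (x / (d + 1)) : ℝ) / ((d + 1 : ℕ) : ℝ) ≤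
            (harmonic (x / d) : ℝ) / ((d + 1 : ℕ) : ℝ) := by
              apply div_le_div_of_nonneg_right hm (by positivity)
          _ ≤ (harmonic (x / d) : ℝ) / d := by
              apply div_le_div_of_nonneg_left hn hd0
              push_cast
              linarith)
      (by
        intro d hd
        have hn : (0 : ℝ) ≤ harmonic (x / d) := by
          rw [harmonic_eq_sum_Icc]
          push_cast
          exact Finset.sum_nonneg fun i _ => by positivity
        exact div_nonneg hn (Nat.cast_nonneg _))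
    refine le_trans h1 ?_
    have h2 : (harmonic (x / (s + 1)) : ℝ) ≤ 1 + Real.log x := by
      have h3 := harmonic_le_one_add_log (x / (s + 1))
      have h4 : 1 ≤ x / (s + 1) := Nat.div_pos (by omega) (by omega)
      have h5 : Real.log ((x / (s + 1) : ℕ) : ℝ) ≤ Real.log x := by
        apply Real.log_le_log (by exact_mod_cast h4)
        exact_mod_cast Nat.div_le_self x (s + 1)
      linarith
    calc 4 * (D : ℝ) * ((harmonic (x / (s + 1)) : ℝ) / ((s + 1 : ℕ) : ℝ)) ≤
        4 * (D : ℝ) * ((1 + Real.log x) / ((s + 1 : ℕ) : ℝ)) := by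
          apply mul_le_mul_of_nonneg_left _ (by positivity)
          exact div_le_div_of_nonneg_right h2 (by positivity)
      _ ≤ 4 * D * (1 + Real.log x) / Real.sqrt x := hinv _ (by linarith)
  -- main part
  have hS1 : |∑ d ∈ Ico 1 (s + 1), c d * ((harmonic (x / d) : ℝ) / d) -
      ∑ d ∈ Ico 1 (s + 1), c d * ((Real.log x + γ - Real.log d) / d)| ≤ 4 / Real.sqrt x := by
    rw [← Finset.sum_sub_distrib]
    calc |∑ d ∈ Ico 1 (s + 1), (c d * ((harmonic (x / d) : ℝ) / d) -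
          c d * ((Real.log x + γ - Real.log d) / d))| ≤
        ∑ d ∈ Ico 1 (s + 1), |c d * ((harmonic (x / d) : ℝ) / d) -
          c d * ((Real.log x + γ - Real.log d) / d)| := Finset.abs_sum_le_sum_abs _ _
      _ ≤ ∑ d ∈ Ico 1 (s + 1), 4 / (x : ℝ) := by
          refine Finset.sum_le_sum fun d hd => ?_
          rw [Finset.mem_Ico] at hd
          have hd0 : (0 : ℝ) < d := by exact_mod_cast (by omega : 0 < d)
          have h1 := rsa_Hdiv x d hd.1 (by omega)
          rw [← hγ] at h1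
          have h2 : c d * ((harmonic (x / d) : ℝ) / d) -
              c d * ((Real.log x + γ - Real.log d) / d) =
              c d * (((harmonic (x / d) : ℝ) - (Real.log x + γ - Real.log d)) / d) := by ring
          rw [h2, abs_mul, abs_div, abs_of_pos hd0]
          calc |c d| * (|(harmonic (x / d) : ℝ) - (Real.log x + γ - Real.log d)| / d) ≤
              1 * ((4 * d / x) / d) := by
                apply mul_le_mul (hcabs d) _ (by positivity) (by norm_num)
                exact div_le_div_of_nonneg_right h1 hd0.le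
            _ = 4 / (x : ℝ) := by field_simp
      _ = 4 * s / x := by
          rw [Finset.sum_const, Nat.card_Ico, nsmul_eq_mul, Nat.add_sub_cancel]
          ring
      _ ≤ 4 / Real.sqrt x := by
          rw [div_le_div_iff₀ hx0 hsq0]
          have h3 : Real.sqrt x * Real.sqrt x = x := Real.mul_self_sqrt hx0.le
          nlinarith
  -- tails of the constants
  have hT1 : |∑ d ∈ Ico (s + 1) (X + 1), c d * (1 / (d : ℝ))| ≤ 4 * D * 1 / Real.sqrt x := by
    have h1 := rsa_abel c (fun d => 1 / (d : ℝ)) (4 * D) (s + 1) (X + 1) hcint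
      (by
        intro d hd
        have hd0 : (0 : ℝ) < d := by exact_mod_cast (by omega : 0 < d)
        apply one_div_le_one_div_of_le hd0
        push_cast
        linarith)
      (by intro d hd; positivity)
    exact le_trans h1 (hinv 1 (by norm_num))
  have hT2 : |∑ d ∈ Ico (s + 1) (X + 1), c d * ((1 + Real.log d) / (d : ℝ))| ≤
      4 * D * (1 + Real.log x) / Real.sqrt x := by
    have h1 := rsa_abel c (fun d => (1 + Real.log d) / (d : ℝ)) (4 * D) (s + 1) (X + 1) hcint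
      (by
        intro d hd
        exact rsa_anti d (by omega))
      (by
        intro d hd
        have : (1 : ℝ) ≤ d := by exact_mod_cast (by omega : 1 ≤ d)
        have := Real.log_nonneg this
        positivity)
    refine le_trans h1 (le_trans ?_ (hinv (1 + Real.log x) (by linarith)))
    apply mul_le_mul_of_nonneg_left _ (by positivity)
    apply div_le_div_of_nonneg_right _ (by positivity)
    have h6 : Real.log ((s + 1 : ℕ) : ℝ) ≤ Real.log x := by
      apply Real.log_le_log (by positivity)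
      exact_mod_cast hsx
    linarith
  -- assemble
  have hid : Rr D x - ((∑ d ∈ Ico 1 (X + 1), c d / d) * Real.log x +
      ∑ d ∈ Ico 1 (X + 1), c d * ((γ - Real.log d) / d)) =
      (∑ d ∈ Ico 1 (s + 1), c d * ((harmonic (x / d) : ℝ) / d) -
        ∑ d ∈ Ico 1 (s + 1), c d * ((Real.log x + γ - Real.log d) / d)) +
      ∑ d ∈ Ico (s + 1) (x + 1), c d * ((harmonic (x / d) : ℝ) / d) -
      (Real.log x + γ + 1) * ∑ d ∈ Ico (s + 1) (X + 1), c d * (1 / (d : ℝ)) +
      ∑ d ∈ Ico (s + 1) (X + 1), c d * ((1 + Real.log d) / (d : ℝ)) := by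
    have h1 : (∑ d ∈ Ico 1 (X + 1), c d / d) * Real.log x +
        ∑ d ∈ Ico 1 (X + 1), c d * ((γ - Real.log d) / d) =
        ∑ d ∈ Ico 1 (X + 1), c d * ((Real.log x + γ - Real.log d) / d) := by
      rw [Finset.sum_mul, ← Finset.sum_add_distrib]
      refine Finset.sum_congr rfl fun d _ => ?_
      ring
    have h2 : ∑ d ∈ Ico (s + 1) (X + 1), c d * ((Real.log x + γ - Real.log d) / d) =
        (Real.log x + γ + 1) * ∑ d ∈ Ico (s + 1) (X + 1), c d * (1 / (d : ℝ)) -
        ∑ d ∈ Ico (s + 1) (X + 1), c d * ((1 + Real.log d) / (d : ℝ)) := by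
      rw [Finset.mul_sum, ← Finset.sum_sub_distrib]
      refine Finset.sum_congr rfl fun d _ => ?_
      ring
    rw [h1, hRr, hspl, hsplX, h2]
    ring
  rw [hid]
  have e1 := abs_add_le ((∑ d ∈ Ico 1 (s + 1), c d * ((harmonic (x / d) : ℝ) / d) -
        ∑ d ∈ Ico 1 (s + 1), c d * ((Real.log x + γ - Real.log d) / d)) +
      ∑ d ∈ Ico (s + 1) (x + 1), c d * ((harmonic (x / d) : ℝ) / d) -
      (Real.log x + γ + 1) * ∑ d ∈ Ico (s + 1) (X + 1), c d * (1 / (d : ℝ)))
      (∑ d ∈ Ico (s + 1) (X + 1), c d * ((1 + Real.log d) / (d : ℝ)))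
  have e2 := abs_sub ((∑ d ∈ Ico 1 (s + 1), c d * ((harmonic (x / d) : ℝ) / d) -
        ∑ d ∈ Ico 1 (s + 1), c d * ((Real.log x + γ - Real.log d) / d)) +
      ∑ d ∈ Ico (s + 1) (x + 1), c d * ((harmonic (x / d) : ℝ) / d))
      ((Real.log x + γ + 1) * ∑ d ∈ Ico (s + 1) (X + 1), c d * (1 / (d : ℝ)))
  have e3 := abs_add_le (∑ d ∈ Ico 1 (s + 1), c d * ((harmonic (x / d) : ℝ) / d) -
        ∑ d ∈ Ico 1 (s + 1), c d * ((Real.log x + γ - Real.log d) / d))
      (∑ d ∈ Ico (s + 1) (x + 1), c d * ((harmonic (x / d) : ℝ) / d))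
  have e4 : |(Real.log x + γ + 1) * ∑ d ∈ Ico (s + 1) (X + 1), c d * (1 / (d : ℝ))| ≤
      (Real.log x + γ + 1) * (4 * D * 1 / Real.sqrt x) := by
    rw [abs_mul, abs_of_pos (by linarith : (0 : ℝ) < Real.log x + γ + 1)]
    exact mul_le_mul_of_nonneg_left hT1 (by linarith)
  have htot : 4 / Real.sqrt x + 4 * D * (1 + Real.log x) / Real.sqrt x +
      (Real.log x + γ + 1) * (4 * D * 1 / Real.sqrt x) +
      4 * D * (1 + Real.log x) / Real.sqrt x ≤ 60 * D * Real.log x / Real.sqrt x := by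
    have h1 : 4 / Real.sqrt x + 4 * D * (1 + Real.log x) / Real.sqrt x +
      (Real.log x + γ + 1) * (4 * D * 1 / Real.sqrt x) +
      4 * D * (1 + Real.log x) / Real.sqrt x = (4 + 4 * D * (1 + Real.log x) +
      (Real.log x + γ + 1) * (4 * D) + 4 * D * (1 + Real.log x)) / Real.sqrt x := by ring
    rw [h1]
    apply div_le_div_of_nonneg_right _ hsq0.le
    have h2 : (D : ℝ) * 1 ≤ D * (3 / 2 * Real.log x) :=
      mul_le_mul_of_nonneg_left hL (by linarith)
    have h3 : 1 * Real.log x ≤ D * Real.log x := mul_le_mul_of_nonneg_right hD1 hL0.le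
    have h4 : γ * D ≤ 1 * D := mul_le_mul_of_nonneg_right hγ1.le (by linarith)
    nlinarith
  linarith

end Pool.Agent.Helper47.UG
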